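import Pool.Agent.X150.TO.Torse

/-! Every `C¹`-smooth torse in Euclidean 3-space has bounded extrinsic curvature in the sense of
Pogorelov; indeed the spherical image of a small neighbourhood of any of its points has area zero.

Idea: write the surface locally as a graph of a `C¹` function `f` with gradient `(a, b)`. Consider
those points where the gradient is constant on a segment crossing a fixed vertical strip
`x0 ≤ x ≤ x1`. For fixed `β` the values of `a` over the points of this kind with `b = β` form a null
set: the segments with different values of `a` are disjoint, so they are ordered by the sum `σ` of
their heights at `x0` and `x1`, and comparing `f - β y` at the ends of two segments shows that `a` is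
a function of `σ` with derivative zero. By Fubini the range of the gradient is null over countably
many such pieces that cover a neighbourhood, up to exchanging the coordinates. -/

set_option autoImplicit false

open Set MeasureTheory Metric
open scoped Manifold ContDiff

namespace Pool.Agent.Results.MP_81590e_gt.Main

open Pool.Agent.X150.TO

theorem result {M : Type*} [TopologicalSpace M] [ChartedSpace (EuclideanSpace ℝ (Fin 2)) M]
    [IsManifold (𝓡 2) 1 M] (F : M → EuclideanSpace ℝ (Fin 3)) (hF : IsC1Surface F)
    (hT : IsTorse F) : IsBECP F ∧ LocallyNull F :=
  ⟨becp hF hT, null_spherical hF hT⟩

end Pool.Agent.Results.MP_81590e_gt.Main
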